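import Mathlib
import Pool.Agent.Helper64.BKA.Stmts

set_option autoImplicit false

open scoped Classical

namespace BKA
namespace Eul

variable {G : Type} [Group G] [Fintype G] (H : Subgroup G) (χ : H →* ℂˣ)

/-- the extended character is invariant under conjugation by `H` -/
theorem ext_conj (y : G) (h : G) (hh : h ∈ H) : ext H χ (h⁻¹ * y * h) = ext H χ y := by
  have hiff : h⁻¹ * y * h ∈ H ↔ y ∈ H := by
    constructor
    · intro h1
      have := H.mul_mem (H.mul_mem hh h1) (H.inv_mem hh)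
      simpa [mul_assoc] using this
    · intro h1
      exact H.mul_mem (H.mul_mem (H.inv_mem hh) h1) hh
  unfold ext
  by_cases hy : y ∈ H
  · rw [dif_pos hy, dif_pos (hiff.2 hy)]
    have e : (⟨h⁻¹ * y * h, hiff.2 hy⟩ : H) = (⟨h, hh⟩ : H)⁻¹ * ⟨y, hy⟩ * ⟨h, hh⟩ := by
      ext; simp
    rw [e, map_mul, map_mul, map_inv, mul_comm _ (χ ⟨y, hy⟩), mul_assoc, inv_mul_cancel, mul_one]
  · rw [dif_neg hy, dif_neg (fun h1 => hy (hiff.1 h1))]

theorem ext_pow (y : G) (hy : y ∈ H) (m : ℕ) : ext H χ (y ^ m) = ext H χ y ^ m := by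
  unfold ext
  rw [dif_pos hy, dif_pos (H.pow_mem hy m)]
  have e : (⟨y ^ m, H.pow_mem hy m⟩ : H) = ⟨y, hy⟩ ^ m := by ext; simp
  rw [e, map_pow, Units.val_pow_eq_pow_val]

theorem ext_norm (y : G) (hy : y ∈ H) : ‖ext H χ y‖ = 1 := by
  have h1 : ext H χ y ^ Nat.card H = 1 := by
    unfold ext
    rw [dif_pos hy, ← Units.val_pow_eq_pow_val, ← map_pow, pow_card_eq_one', map_one,
      Units.val_one]
  exact Complex.norm_eq_one_of_pow_eq_one h1 Nat.card_pos.ne'

/-- a sum over the group of a function which is constant on cosets -/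
theorem sum_coset (φ : G → ℂ) (hφ : ∀ x h, h ∈ H → φ (x * h) = φ x) :
    ∑ x : G, φ x = (Nat.card H : ℂ) * ∑ p : G ⧸ H, φ p.out := by
  let e : (G ⧸ H) × H → G := fun ph => ph.1.out * (ph.2 : G)
  have he : Function.Bijective e := by
    constructor
    · rintro ⟨p, h⟩ ⟨p', h'⟩ hE
      change p.out * (h : G) = p'.out * (h' : G) at hE
      have h1 : p = p' := by
        have h2 : (QuotientGroup.mk (p.out * (h : G)) : G ⧸ H) = QuotientGroup.mk p.out :=
          QuotientGroup.mk_mul_of_mem _ h.2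
        have h3 : (QuotientGroup.mk (p'.out * (h' : G)) : G ⧸ H) = QuotientGroup.mk p'.out :=
          QuotientGroup.mk_mul_of_mem _ h'.2
        rw [hE, h3, QuotientGroup.out_eq', QuotientGroup.out_eq'] at h2
        exact h2.symm
      subst h1
      have h4 : (h : G) = h' := mul_left_cancel hE
      have h5 : h = h' := Subtype.ext h4
      rw [h5]
    · intro x
      obtain ⟨h, hh⟩ := QuotientGroup.mk_out_eq_mul H x
      refine ⟨⟨QuotientGroup.mk x, h⁻¹⟩, ?_⟩
      change (QuotientGroup.mk x : G ⧸ H).out * ((h⁻¹ : H) : G) = x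
      rw [hh]
      simp
  rw [← he.sum_comp φ, Fintype.sum_prod_type, Finset.mul_sum]
  apply Finset.sum_congr rfl
  intro p _
  have : ∀ h : H, φ (e (p, h)) = φ p.out := fun h => hφ _ _ h.2
  simp_rw [this]
  rw [Finset.sum_const, Finset.card_univ, nsmul_eq_mul, Nat.card_eq_fintype_card]

/-- a sum over the cosets of a function which is constant on the orbits of `g` -/
theorem sum_orbit (g : G) (ψ : G ⧸ H → ℂ)
    (hψ : ∀ z ∈ Subgroup.zpowers g, ∀ p, ψ (z • p) = ψ p) :
    ∑ p, ψ p = ∑ o : MulAction.orbitRel.Quotient (Subgroup.zpowers g) (G ⧸ H),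
      (Function.minimalPeriod (fun x : G ⧸ H => g • x) o.out : ℂ) * ψ o.out := by
  rw [← (MulAction.selfEquivSigmaOrbits (Subgroup.zpowers g) (G ⧸ H)).symm.sum_comp ψ,
    Fintype.sum_sigma]
  apply Finset.sum_congr rfl
  intro o _
  have h1 : ∀ b : MulAction.orbit (Subgroup.zpowers g) o.out,
      ψ ((MulAction.selfEquivSigmaOrbits (Subgroup.zpowers g) (G ⧸ H)).symm ⟨o, b⟩) =
        ψ o.out := by
    intro b
    have h2 : (MulAction.selfEquivSigmaOrbits (Subgroup.zpowers g) (G ⧸ H)).symm ⟨o, b⟩ =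
        (b : G ⧸ H) := rfl
    rw [h2]
    obtain ⟨z, hz⟩ := b.2
    rw [← hz]
    exact hψ z z.2 _
  simp_rw [h1]
  have hcard : Function.minimalPeriod (fun x : G ⧸ H => g • x) o.out =
      Nat.card (MulAction.orbit (Subgroup.zpowers g) o.out) := by
    rw [MulAction.minimalPeriod_eq_card (a := g) (b := o.out), Nat.card_eq_fintype_card]
    exact Fintype.card_congr (Equiv.refl _)
  rw [Finset.sum_const, Finset.card_univ, nsmul_eq_mul, hcard, Nat.card_eq_fintype_card]

/-- the induced character as a sum over orbits -/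
theorem ind_pow (g : G) (k : ℕ) : ind H χ (g ^ k) =
    ∑ o : MulAction.orbitRel.Quotient (Subgroup.zpowers g) (G ⧸ H),
      if Function.minimalPeriod (fun x : G ⧸ H => g • x) o.out ∣ k then
        (Function.minimalPeriod (fun x : G ⧸ H => g • x) o.out : ℂ) *
          ext H χ (o.out.out⁻¹ * g ^ Function.minimalPeriod (fun x : G ⧸ H => g • x) o.out *
            o.out.out) ^ (k / Function.minimalPeriod (fun x : G ⧸ H => g • x) o.out)
      else 0 := by
  have hc : ∀ x h : G, h ∈ H → ext H χ ((x * h)⁻¹ * g ^ k * (x * h)) =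
      ext H χ (x⁻¹ * g ^ k * x) := by
    intro x h hh
    rw [← ext_conj H χ (x⁻¹ * g ^ k * x) h hh]
    congr 1
    group
  unfold ind
  rw [sum_coset H (fun x => ext H χ (x⁻¹ * g ^ k * x)) hc, ← mul_assoc,
    inv_mul_cancel₀ (by exact_mod_cast Nat.card_pos.ne'), one_mul]
  rw [sum_orbit H g (fun p => ext H χ (p.out⁻¹ * g ^ k * p.out))]
  · apply Finset.sum_congr rfl
    intro o _
    set f := Function.minimalPeriod (fun x : G ⧸ H => g • x) o.out with hf
    set x := o.out.out with hx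
    have hmk : (QuotientGroup.mk x : G ⧸ H) = o.out := by
      rw [hx]; exact QuotientGroup.out_eq' _
    have hmem : ∀ m : ℕ, x⁻¹ * g ^ m * x ∈ H ↔ f ∣ m := by
      intro m
      rw [hf, ← MulAction.pow_smul_eq_iff_minimalPeriod_dvd, ← hmk, MulAction.Quotient.smul_mk,
        eq_comm, QuotientGroup.eq, smul_eq_mul, mul_assoc]
    by_cases hk : f ∣ k
    · rw [if_pos hk]
      obtain ⟨m, rfl⟩ := hk
      have hfpos : 0 < f := by
        rw [hf]
        exact Nat.pos_of_ne_zero (NeZero.ne _)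
      rw [Nat.mul_div_cancel_left m hfpos, ← ext_pow H χ _ ((hmem f).2 dvd_rfl)]
      congr 2
      have : x⁻¹ * g ^ f * x = x⁻¹ * g ^ f * x⁻¹⁻¹ := by rw [inv_inv]
      rw [this, conj_pow, inv_inv, pow_mul]
    · rw [if_neg hk]
      have : ¬ x⁻¹ * g ^ k * x ∈ H := fun h => hk ((hmem k).1 h)
      unfold ext
      rw [dif_neg this, mul_zero]
  · intro z hz p
    obtain ⟨h, hh⟩ := QuotientGroup.mk_out_eq_mul H (z * p.out)
    have e1 : (z • p) = (QuotientGroup.mk (z * p.out) : G ⧸ H) := by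
      conv_lhs => rw [← QuotientGroup.out_eq' p]
      rfl
    rw [e1, hh, hc _ _ h.2]
    have hcomm : Commute (g ^ k) z := by
      obtain ⟨n, rfl⟩ := Subgroup.mem_zpowers_iff.1 hz
      exact (Commute.refl g).pow_left k |>.zpow_right n
    congr 1
    rw [mul_inv_rev]
    have := hcomm.eq
    calc p.out⁻¹ * z⁻¹ * g ^ k * (z * p.out) = p.out⁻¹ * z⁻¹ * (g ^ k * z) * p.out := by group
      _ = p.out⁻¹ * z⁻¹ * (z * g ^ k) * p.out := by rw [this]
      _ = p.out⁻¹ * g ^ k * p.out := by group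

/-- the logarithm of one factor, as a sum over all `n` -/
theorem one (c Y : ℂ) (hc : ‖c‖ = 1) (hY : ‖Y‖ < 1) (f : ℕ) (hf : 0 < f) :
    HasSum (fun n : ℕ => (if f ∣ n + 1 then (f : ℂ) * c ^ ((n + 1) / f) else 0) * Y ^ (n + 1) /
      ((n : ℂ) + 1)) (-Complex.log (1 - c * Y ^ f)) := by
  have hz : ‖c * Y ^ f‖ < 1 := by
    rw [norm_mul, hc, one_mul, norm_pow]
    exact pow_lt_one₀ (norm_nonneg _) hY hf.ne'
  have h1 := Complex.hasSum_taylorSeries_neg_log hz
  have h2 : HasSum (fun n : ℕ => (if f ∣ n then (f : ℂ) * c ^ (n / f) else 0) * Y ^ n / (n : ℂ))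
      (-Complex.log (1 - c * Y ^ f)) := by
    have hinj : Function.Injective (fun m : ℕ => f * m) := fun a b hab =>
      Nat.eq_of_mul_eq_mul_left hf hab
    rw [← hinj.hasSum_iff]
    · refine h1.congr_fun ?_ |> fun h => h
      intro m
      simp only [Function.comp]
      rw [if_pos (Dvd.intro m rfl), Nat.mul_div_cancel_left m hf, mul_pow, ← pow_mul]
      push_cast
      have hf' : (f : ℂ) ≠ 0 := by exact_mod_cast hf.ne'
      rcases Nat.eq_zero_or_pos m with rfl | hm
      · simp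
      · have hm' : (m : ℂ) ≠ 0 := by exact_mod_cast hm.ne'
        field_simp
    · intro n hn
      have : ¬ f ∣ n := by
        rintro ⟨m, rfl⟩
        exact hn ⟨m, rfl⟩
      rw [if_neg this, zero_mul, zero_div]
  have h3 := (hasSum_nat_add_iff (f := fun n : ℕ =>
    (if f ∣ n then (f : ℂ) * c ^ (n / f) else 0) * Y ^ n / (n : ℂ)) 1
    (g := -Complex.log (1 - c * Y ^ f))).2 (by simpa using h2)
  simpa using h3

end Eul

/-- EUL: the logarithm of the Euler factor. -/
theorem st_EUL : ST_EUL := by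
  intro G _ _ H χ g Y hY
  have hper : ∀ o : MulAction.orbitRel.Quotient (Subgroup.zpowers g) (G ⧸ H),
      0 < Function.minimalPeriod (fun x : G ⧸ H => g • x) o.out := fun o =>
    Nat.pos_of_ne_zero (NeZero.ne _)
  have hmem : ∀ o : MulAction.orbitRel.Quotient (Subgroup.zpowers g) (G ⧸ H),
      o.out.out⁻¹ * g ^ Function.minimalPeriod (fun x : G ⧸ H => g • x) o.out *
            o.out.out ∈ H := by
    intro o
    have hmk : (QuotientGroup.mk o.out.out : G ⧸ H) = o.out := QuotientGroup.out_eq' _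
    have h1 := (MulAction.pow_smul_eq_iff_minimalPeriod_dvd (a := g) (b := o.out)
      (n := Function.minimalPeriod (fun x : G ⧸ H => g • x) o.out)).2 dvd_rfl
    rw [← hmk, MulAction.Quotient.smul_mk, eq_comm, QuotientGroup.eq, smul_eq_mul, hmk,
      ← mul_assoc] at h1
    exact h1
  refine ⟨∑ o : MulAction.orbitRel.Quotient (Subgroup.zpowers g) (G ⧸ H),
    -Complex.log (1 - ext H χ (o.out.out⁻¹ *
      g ^ Function.minimalPeriod (fun x : G ⧸ H => g • x) o.out * o.out.out) *
        Y ^ Function.minimalPeriod (fun x : G ⧸ H => g • x) o.out), ?_, ?_⟩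
  · have h := hasSum_sum (s := Finset.univ) (fun o _ => Eul.one _ Y
      (Eul.ext_norm H χ _ (hmem o)) hY _ (hper o))
    refine h.congr_fun ?_ |> fun h => h
    intro n
    rw [Eul.ind_pow H χ g (n + 1), Finset.sum_mul, Finset.sum_div]
  · unfold euler
    rw [← Finset.prod_inv_distrib, Complex.exp_sum]
    apply Finset.prod_congr rfl
    intro o _
    rw [Complex.exp_neg, Complex.exp_log]
    intro h0
    have hz : ‖ext H χ (o.out.out⁻¹ *
      g ^ Function.minimalPeriod (fun x : G ⧸ H => g • x) o.out * o.out.out) *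
        Y ^ Function.minimalPeriod (fun x : G ⧸ H => g • x) o.out‖ < 1 := by
      rw [norm_mul, Eul.ext_norm H χ _ (hmem o), one_mul, norm_pow]
      exact pow_lt_one₀ (norm_nonneg _) hY (hper o).ne'
    rw [← sub_eq_zero.1 h0, norm_one] at hz
    exact lt_irrefl _ hz

end BKA
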